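import Mathlib
import Pool.Agent.H932R2.Base

set_option autoImplicit false

/-!
# Balanced shapes and the compressions between them
-/

namespace Pool.Agent.H932R2

/-- The balanced shape of slope `s`. -/
def Lset (s V j : ℕ) : Set (ℕ × ℕ) := {p | p.1 + s * p.2 < V ∨ (p.1 + s * p.2 = V ∧ p.2 < j)}

theorem mem_Lset {s V j i l : ℕ} :
    ((i, l) : ℕ × ℕ) ∈ Lset s V j ↔ i + s * l < V ∨ (i + s * l = V ∧ l < j) := Iff.rfl

theorem domY_of_inj {ρ B : ℕ} {M M' : Set (ℕ × ℕ)}
    (h : ∀ i q, ((i, q) : ℕ × ℕ) ∈ M' → ∃ f : ℕ → ℕ, (∀ a b, a ≤ q → b ≤ q → f a = f b → a = b) ∧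
      ∀ a ≤ q, f a ≤ B ∧ ρ * f a ≤ i + ρ * q ∧ ∀ x, x + ρ * f a = i + ρ * q → (x, f a) ∈ M) :
    DomY ρ B M M' := by
  rintro ⟨i, q⟩ hp
  obtain ⟨f, hf, hM⟩ := h i q hp
  refine ⟨fun a => f a, fun a b hab => Fin.ext (hf a b (Nat.lt_succ_iff.1 a.2)
    (Nat.lt_succ_iff.1 b.2) hab), fun a => ?_⟩
  obtain ⟨h1, h2, h3⟩ := hM a (Nat.lt_succ_iff.1 a.2)
  exact ⟨h1, h2, h3 _ (Nat.sub_add_cancel h2)⟩

theorem domY_of_block {ρ B : ℕ} {M M' : Set (ℕ × ℕ)}
    (h : ∀ i q, ((i, q) : ℕ × ℕ) ∈ M' → ∃ b, b + q ≤ B ∧ ρ * (b + q) ≤ i + ρ * q ∧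
      ∀ l, b ≤ l → l ≤ b + q → ∀ x, x + ρ * l = i + ρ * q → (x, l) ∈ M) :
    DomY ρ B M M' := by
  refine domY_of_inj fun i q hp => ?_
  obtain ⟨b, h1, h2, h3⟩ := h i q hp
  refine ⟨fun a => b + a, fun a a' _ _ h => by simpa using h, fun a ha => ?_⟩
  beta_reduce
  exact ⟨by omega, (Nat.mul_le_mul_left _ (by omega)).trans h2, h3 _ (by omega) (by omega)⟩

/-- Auxiliary values for the intermediate shape. -/
def val (u t j q : ℕ) : ℕ :=
  if q < t + (if u + 1 ≤ q + j then 1 else 0) then 1 + (if u + 1 ≤ q + j then 1 else 0)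
  else (if u ≤ q + j then 1 else 0)

/-- The intermediate shape. -/
def Bset (s V u t j : ℕ) : Set (ℕ × ℕ) :=
  {p | p.2 ≤ u ∧ p.1 + (s + 2) * p.2 + 1 < V + u + val u t j p.2}

theorem mem_Bset {s V u t j i q : ℕ} :
    ((i, q) : ℕ × ℕ) ∈ Bset s V u t j ↔ q ≤ u ∧ i + (s + 2) * q + 1 < V + u + val u t j q :=
  Iff.rfl

theorem step_one {s V u t j B : ℕ} (hV : V = s * u + t) (hB : u ≤ B)
    (hu : u ≤ s + 1 + t + (if 0 < j then 1 else 0)) :
    DomY (s + 1) B (Lset s V j) (Bset s V u t j) := by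
  refine domY_of_block fun i q hp => ?_
  rw [mem_Bset] at hp
  obtain ⟨hq, hi⟩ := hp
  have e1 : (s + 2) * q = s * q + 2 * q := by ring
  have e2 : (s + 1) * q = s * q + q := by ring
  rw [e1] at hi
  by_cases h1 : (s + 1) * u ≤ i + (s + 1) * q
  · refine ⟨u - q, by omega, by rwa [Nat.sub_add_cancel hq], fun l hl hl' x hx => ?_⟩
    rw [mem_Lset]
    have e3 : (s + 1) * l = s * l + l := by ring
    rw [e3, e2] at hx
    unfold val at hi
    split_ifs at hi <;> omega
  · have hqu : q ≠ u := by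
      rintro rfl
      exact h1 (by omega)
    obtain ⟨w, rfl⟩ : ∃ w, u = w + 1 := ⟨u - 1, by omega⟩
    have e4 : (s + 1) * (w + 1) = s * w + s + w + 1 := by ring
    have e5 : s * (w + 1) = s * w + s := by ring
    rw [e4] at h1
    rw [e5] at hV
    by_cases h2 : (s + 1) * w ≤ i + (s + 1) * q
    · have hwq : w - q + q = w := by omega
      refine ⟨w - q, by omega, by rwa [hwq], fun l hl hl' x hx => ?_⟩
      rw [mem_Lset]
      have e3 : (s + 1) * l = s * l + l := by ring
      rw [e3, e2] at hx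
      rw [e2] at h1
      unfold val at hi
      split_ifs at hi <;> omega
    · refine ⟨0, by omega, by rw [zero_add]; omega, fun l hl hl' x hx => ?_⟩
      rw [mem_Lset]
      have e3 : (s + 1) * l = s * l + l := by ring
      have e6 : (s + 1) * w = s * w + w := by ring
      rw [e3, e2] at hx
      rw [e2, e6] at h2
      split_ifs at hu <;> omega

theorem step_two_a {s V u t j B : ℕ} (hV : V = s * u + t) (hB : u ≤ B) (ht : t < s)
    (hj : j ≤ u + 1) (h : u ≤ t) :
    DomY (s + 2) B (Bset s V u t j) (Lset (s + 2) (V + u) j) := by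
  refine domY_of_block fun i q hp => ?_
  rw [mem_Lset] at hp
  have hqu : q ≤ u := by
    by_contra hq
    have h1 : (s + 2) * (u + 1) ≤ (s + 2) * q := Nat.mul_le_mul_left _ (by omega)
    have h2 : (s + 2) * (u + 1) = s * u + s + 2 * u + 2 := by ring
    omega
  by_cases h1 : i + (s + 2) * q < V + u
  · refine ⟨0, by omega, by rw [zero_add]; omega, fun l hl hl' x hx => ?_⟩
    rw [mem_Bset]
    refine ⟨by omega, ?_⟩
    unfold val
    split_ifs <;> omega
  · refine ⟨u + 1 - j, by omega, ?_, fun l hl hl' x hx => ?_⟩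
    · have h2 : (s + 2) * (u + 1 - j + q) ≤ (s + 2) * u := Nat.mul_le_mul_left _ (by omega)
      have h3 : (s + 2) * u = s * u + 2 * u := by ring
      omega
    · rw [mem_Bset]
      refine ⟨by omega, ?_⟩
      unfold val
      split_ifs <;> omega

theorem step_two_c {s V u t j B : ℕ} (hV : V = s * u + t) (hB : u ≤ B)
    (hj : j ≤ u + 1) (h : t < u) (h' : u ≤ t + j) (hu : u ≤ s + 2 + t) :
    DomY (s + 2) B (Bset s V u t j) (Lset (s + 2) (V + u) (t + j - u)) := by
  refine domY_of_block fun i q hp => ?_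
  rw [mem_Lset] at hp
  have hqu : q < u := by
    by_contra hq
    have h1 : (s + 2) * u ≤ (s + 2) * q := Nat.mul_le_mul_left _ (by omega)
    have h2 : (s + 2) * u = s * u + 2 * u := by ring
    omega
  by_cases h1 : i + (s + 2) * q < V + u
  · refine ⟨0, by omega, by rw [zero_add]; omega, fun l hl hl' x hx => ?_⟩
    rw [mem_Bset]
    refine ⟨by omega, ?_⟩
    unfold val
    split_ifs <;> omega
  · refine ⟨u + 1 - j, by omega, ?_, fun l hl hl' x hx => ?_⟩
    · obtain ⟨w, rfl⟩ : ∃ w, u = w + 1 := ⟨u - 1, by omega⟩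
      have h2 : (s + 2) * (w + 1 + 1 - j + q) ≤ (s + 2) * w := Nat.mul_le_mul_left _ (by omega)
      have h3 : (s + 2) * w = s * w + 2 * w := by ring
      have h4 : s * (w + 1) = s * w + s := by ring
      omega
    · rw [mem_Bset]
      refine ⟨by omega, ?_⟩
      unfold val
      split_ifs <;> omega

theorem step_two_b {s V u t j B : ℕ} (hV : V = s * u + t) (hB : u ≤ B)
    (h' : t + j < u) (hu : u ≤ s + 1 + t) :
    DomY (s + 2) B (Bset s V u t j) (Lset (s + 2) (V + u - 1) (t + j)) := by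
  refine domY_of_inj fun i q hp => ?_
  rw [mem_Lset] at hp
  obtain ⟨w, rfl⟩ : ∃ w, u = w + 1 := ⟨u - 1, by omega⟩
  have hqu : q < w + 1 := by
    by_contra hq
    have h1 : (s + 2) * (w + 1) ≤ (s + 2) * q := Nat.mul_le_mul_left _ (by omega)
    have h2 : (s + 2) * (w + 1) = s * (w + 1) + 2 * (w + 1) := by ring
    omega
  by_cases h1 : i + (s + 2) * q < V + w
  · refine ⟨fun a => a, fun a b _ _ hab => hab, fun a ha => ?_⟩
    beta_reduce
    have h2 : (s + 2) * a ≤ (s + 2) * q := Nat.mul_le_mul_left _ ha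
    refine ⟨by omega, by omega, fun x hx => ?_⟩
    rw [mem_Bset]
    refine ⟨by omega, ?_⟩
    unfold val
    split_ifs <;> omega
  · refine ⟨fun a => if a < t then a else w + 1 - j + (a - t), ?_, fun a ha => ?_⟩
    · intro a b ha hb hab
      beta_reduce at hab
      split_ifs at hab <;> omega
    · beta_reduce
      have hle : (if a < t then a else w + 1 - j + (a - t)) ≤ w := by
        split_ifs <;> omega
      have h2 : (s + 2) * (if a < t then a else w + 1 - j + (a - t)) ≤ (s + 2) * w :=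
        Nat.mul_le_mul_left _ hle
      have h3 : (s + 2) * w = s * w + 2 * w := by ring
      have h4 : s * (w + 1) = s * w + s := by ring
      refine ⟨by omega, by omega, fun x hx => ?_⟩
      rw [mem_Bset]
      refine ⟨by omega, ?_⟩
      have h5 : V + w + 1 - 1 = V + w := rfl
      have h6 : x + (s + 2) * (if a < t then a else w + 1 - j + (a - t)) = V + w := by omega
      rw [h6]
      unfold val
      split_ifs <;> omega

/-- The boundary case. -/
theorem step_two_d {s V j B : ℕ} (hV : V = s * (s + 2)) (hB : s + 2 ≤ B)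
    (hj : 0 < j) (h' : j < s + 2) :
    DomY (s + 2) B (Bset s V (s + 2) 0 j) (Lset (s + 2) (V + s + 1) (j - 1)) := by
  refine domY_of_block fun i q hp => ?_
  rw [mem_Lset] at hp
  have hqu : q < s + 1 := by
    by_contra hq
    have h1 : (s + 2) * (s + 1) ≤ (s + 2) * q := Nat.mul_le_mul_left _ (by omega)
    have h2 : (s + 2) * (s + 1) = s * (s + 2) + (s + 2) := by ring
    omega
  by_cases h1 : i + (s + 2) * q < V + s + 1
  · refine ⟨0, by omega, by rw [zero_add]; omega, fun l hl hl' x hx => ?_⟩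
    rw [mem_Bset]
    refine ⟨by omega, ?_⟩
    unfold val
    split_ifs <;> omega
  · refine ⟨s + 2 - j, by omega, ?_, fun l hl hl' x hx => ?_⟩
    · have h2 : (s + 2) * (s + 2 - j + q) ≤ (s + 2) * s := Nat.mul_le_mul_left _ (by omega)
      have h3 : (s + 2) * s = s * (s + 2) := by ring
      omega
    · rw [mem_Bset]
      refine ⟨by omega, ?_⟩
      unfold val
      split_ifs <;> omega

end Pool.Agent.H932R2
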