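import Mathlib
import Pool.Agent.H932R2.Chain

set_option autoImplicit false

/-!
# From the triangle to the balanced shape of slope `δ ^ 2`
-/

namespace Pool.Agent.H932R2

/-- Exponents of monomials of degree at most `d`. -/
def Tset (d : ℕ) : Set (ℕ × ℕ) := {p | p.1 + p.2 ≤ d}

theorem mem_Tset {d i l : ℕ} : ((i, l) : ℕ × ℕ) ∈ Tset d ↔ i + l ≤ d := Iff.rfl

/-- First shape. -/
def M1set (δ d : ℕ) : Set (ℕ × ℕ) := {p | p.1 / δ + p.1 % δ + δ * p.2 ≤ d}

theorem mem_M1set {δ d i l : ℕ} :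
    ((i, l) : ℕ × ℕ) ∈ M1set δ d ↔ i / δ + i % δ + δ * l ≤ d := Iff.rfl

theorem step_M1 {δ d B : ℕ} (hδ : 0 < δ) (hB : d ≤ B) : DomY δ B (Tset d) (M1set δ d) := by
  refine domY_of_block fun i q hp => ?_
  rw [mem_M1set] at hp
  obtain ⟨a, ha⟩ : ∃ a, a = i / δ := ⟨_, rfl⟩
  obtain ⟨b, hb⟩ : ∃ b, b = i % δ := ⟨_, rfl⟩
  have hi : δ * a + b = i := by rw [ha, hb]; exact Nat.div_add_mod i δ
  rw [← ha, ← hb] at hp
  have hq : q ≤ δ * q := Nat.le_mul_of_pos_left q hδ
  refine ⟨a, by omega, ?_, fun l hl hl' x hx => ?_⟩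
  · rw [Nat.mul_add]
    omega
  · rw [mem_Tset]
    obtain ⟨e, rfl⟩ := Nat.exists_eq_add_of_le hl
    have h1 : δ * (a + e) = δ * a + δ * e := by ring
    have he : e ≤ δ * e := Nat.le_mul_of_pos_left e hδ
    omega

/-- The number of elements in a row of the first shape. -/
def cnt (δ n : ℕ) : ℕ := ∑ b ∈ Finset.range δ, (n - b)

/-- The sum of the first natural numbers. -/
def cc (δ : ℕ) : ℕ := ∑ b ∈ Finset.range δ, b

/-- The defect of the top row. -/
def YY (δ n : ℕ) : ℕ := ∑ b ∈ Finset.range δ, (b - n)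

theorem cnt_add (δ n : ℕ) : cnt δ n + cc δ = δ * n + YY δ n := by
  unfold cnt cc YY
  rw [← Finset.sum_add_distrib]
  have h1 : δ * n = ∑ _b ∈ Finset.range δ, n := by
    rw [Finset.sum_const, Finset.card_range, smul_eq_mul]
  rw [h1, ← Finset.sum_add_distrib]
  exact Finset.sum_congr rfl fun b _ => by omega

theorem cc_two (δ : ℕ) : 2 * cc δ + δ = δ * δ := by
  unfold cc
  have h := Finset.sum_range_id_mul_two δ
  rcases δ with _ | δ
  · simp
  · rw [Nat.add_sub_cancel] at h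
    nlinarith

theorem YY_zero {δ n : ℕ} (h : δ ≤ n) : YY δ n = 0 :=
  Finset.sum_eq_zero fun b hb => by
    rw [Finset.mem_range] at hb
    omega

theorem YY_two (n e : ℕ) : 2 * YY (n + e) n + e = e * e := by
  induction e with
  | zero => simp [YY_zero]
  | succ e ih =>
    have : YY (n + (e + 1)) n = YY (n + e) n + e := by
      unfold YY
      rw [← Nat.add_assoc, Finset.sum_range_succ]
      congr 1
      omega
    rw [this]
    linarith

theorem exists_cols (δ d q : ℕ) (hδ : 0 < δ) :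
    ∃ A : Finset ℕ, A.card = cnt δ (d + 1 - δ * q) ∧
      ∀ x ∈ A, x / δ + x % δ + δ * q ≤ d := by
  classical
  have key : ∀ a b, b < δ → (δ * a + b) / δ = a ∧ (δ * a + b) % δ = b := by
    intro a b hb
    constructor
    · rw [Nat.mul_add_div hδ, Nat.div_eq_of_lt hb, add_zero]
    · rw [Nat.mul_add_mod, Nat.mod_eq_of_lt hb]
  refine ⟨(rowsF δ fun b => d + 1 - δ * q - b).image fun p => δ * p.1 + p.2, ?_, ?_⟩
  · rw [Finset.card_image_of_injOn, card_rowsF]
    · rfl
    · rintro ⟨a, b⟩ hp ⟨a', b'⟩ hp' h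
      rw [Finset.mem_coe, mem_rowsF] at hp hp'
      simp only at h
      have h1 := key a b hp.1
      have h2 := key a' b' hp'.1
      rw [h] at h1
      rw [Prod.mk.injEq]
      exact ⟨h1.1.symm.trans h2.1, h1.2.symm.trans h2.2⟩
  · intro x hx
    rw [Finset.mem_image] at hx
    obtain ⟨⟨a, b⟩, hp, rfl⟩ := hx
    rw [mem_rowsF] at hp
    simp only
    rw [(key a b hp.1).1, (key a b hp.1).2]
    omega

theorem domX_of_card {B : ℕ} {M M' : Set (ℕ × ℕ)}
    (h : ∀ i q, ((i, q) : ℕ × ℕ) ∈ M' → ∃ A : Finset ℕ, i < A.card ∧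
      ∀ x ∈ A, x ≤ B ∧ (x, q) ∈ M) : DomX B M M' := by
  rintro ⟨i, q⟩ hp
  obtain ⟨A, hA, hM⟩ := h i q hp
  have hle : i + 1 ≤ A.card := hA
  refine ⟨fun a => (A.equivFin.symm (Fin.castLE hle a) : ℕ), fun a b hab => ?_, fun a => ?_⟩
  · have h1 := A.equivFin.symm.injective (Subtype.val_injective hab)
    exact Fin.castLE_injective hle h1
  · exact hM _ (A.equivFin.symm (Fin.castLE hle a)).2

/-- Second shape. -/
def Dset (s W c k Y : ℕ) : Set (ℕ × ℕ) :=
  {p | p.2 ≤ k ∧ p.1 + s * p.2 + c < W + (if p.2 = k then Y else 0)}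

theorem mem_Dset {s W c k Y i q : ℕ} : ((i, q) : ℕ × ℕ) ∈ Dset s W c k Y ↔
    q ≤ k ∧ i + s * q + c < W + (if q = k then Y else 0) := Iff.rfl

theorem step_D {δ d k b B : ℕ} (hδ : 0 < δ) (hd : d + 1 = δ * k + b) (hb' : b ≤ δ)
    (hB : δ * d ≤ B) :
    DomX B (M1set δ d) (Dset (δ * δ) (δ * δ * k + δ * b) (cc δ) k (YY δ b)) := by
  refine domX_of_card fun i q hp => ?_
  rw [mem_Dset] at hp
  obtain ⟨hq, hi⟩ := hp
  obtain ⟨A, hA, hM⟩ := exists_cols δ d q hδ
  refine ⟨A, ?_, fun x hx => ⟨?_, hM x hx⟩⟩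
  · obtain ⟨w, rfl⟩ := Nat.exists_eq_add_of_le hq
    have h1 : d + 1 - δ * q = δ * w + b := by
      rw [hd, Nat.mul_add]
      omega
    rw [h1] at hA
    have h2 := cnt_add δ (δ * w + b)
    have h3 : (if q = q + w then YY δ b else 0) = YY δ (δ * w + b) := by
      rcases w with _ | w
      · simp
      · rw [if_neg (by omega), YY_zero]
        nlinarith
    rw [h3] at hi
    have h4 : δ * (δ * w + b) = δ * δ * w + δ * b := by ring
    have h5 : δ * δ * (q + w) = δ * δ * q + δ * δ * w := by ring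
    rw [h4] at h2
    rw [h5] at hi
    omega
  · have h1 := hM x hx
    refine le_trans ?_ hB
    have h2 := Nat.div_add_mod x δ
    have h3 : δ * (x / δ + x % δ) ≤ δ * d := Nat.mul_le_mul_left _ (by omega)
    have h4 : x % δ ≤ δ * (x % δ) := Nat.le_mul_of_pos_left _ hδ
    rw [Nat.mul_add] at h3
    omega

/-- Third shape. -/
def Eset (s W c k Y g : ℕ) : Set (ℕ × ℕ) :=
  {p | p.2 ≤ k ∧ p.1 + s * p.2 + c < W + (if k < p.2 + Y ∧ p.2 + c ≤ k + g then 1 else 0)}

theorem mem_Eset {s W c k Y g i q : ℕ} : ((i, q) : ℕ × ℕ) ∈ Eset s W c k Y g ↔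
    q ≤ k ∧ i + s * q + c < W + (if k < q + Y ∧ q + c ≤ k + g then 1 else 0) := Iff.rfl

theorem step_E {σ W c k Y g B : ℕ} (hW : W = (σ + 1) * k + g) (hB : k ≤ B) :
    DomY σ B (Dset (σ + 1) W c k Y) (Eset (σ + 1) W c k Y g) := by
  refine domY_of_inj fun i q hp => ?_
  rw [mem_Eset] at hp
  obtain ⟨hq, hi⟩ := hp
  have e1 : (σ + 1) * q = σ * q + q := by ring
  by_cases h1 : i + (σ + 1) * q + c < W
  · refine ⟨fun a => a, fun a b _ _ hab => hab, fun a ha => ?_⟩
    beta_reduce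
    have h2 : σ * a ≤ σ * q := Nat.mul_le_mul_left _ ha
    refine ⟨by omega, by omega, fun x hx => ?_⟩
    rw [mem_Dset]
    refine ⟨by omega, ?_⟩
    have e2 : (σ + 1) * a = σ * a + a := by ring
    rw [e2]
    omega
  · have h3 : k < q + Y ∧ q + c ≤ k + g := by
      by_contra h3
      rw [if_neg h3] at hi
      omega
    rw [if_pos h3] at hi
    obtain ⟨h3, h4⟩ := h3
    refine ⟨fun a => if a < q then a else k, ?_, fun a ha => ?_⟩
    · intro a b ha hb hab
      beta_reduce at hab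
      split_ifs at hab <;> omega
    · beta_reduce
      have e3 : (σ + 1) * k = σ * k + k := by ring
      by_cases haq : a < q
      · rw [if_pos haq]
        have h2 : σ * a ≤ σ * q := Nat.mul_le_mul_left _ ha
        refine ⟨by omega, by omega, fun x hx => ?_⟩
        rw [mem_Dset]
        refine ⟨by omega, ?_⟩
        have e2 : (σ + 1) * a = σ * a + a := by ring
        rw [e2]
        omega
      · rw [if_neg haq]
        refine ⟨by omega, by omega, fun x hx => ?_⟩
        rw [mem_Dset]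
        refine ⟨by omega, ?_⟩
        rw [if_pos rfl, e3]
        omega

theorem step_L {s W c k Y g V B : ℕ} (hs : 0 < s) (hW : W = s * k + g) (hV : V + c = W)
    (hg : g < s + c) (hY : Y ≤ k) (hB : k ≤ B) :
    DomY s B (Eset s W c k Y g) (Lset s V (Y - (c - g))) := by
  refine domY_of_block fun i q hp => ?_
  rw [mem_Lset] at hp
  have hqk : q ≤ k := by
    by_contra h
    have h1 : s * (k + 1) ≤ s * q := Nat.mul_le_mul_left _ (by omega)
    have h2 : s * (k + 1) = s * k + s := by ring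
    omega
  by_cases h1 : i + s * q < V
  · refine ⟨0, by omega, by rw [zero_add]; omega, fun l hl hl' x hx => ?_⟩
    rw [mem_Eset]
    refine ⟨by omega, ?_⟩
    omega
  · have h2 : i + s * q = V := by omega
    have h3 : q < Y - (c - g) := by omega
    have h4 : s * (k + 1 - Y + q) + (c - g) ≤ s * k := by
      have h5 : k + 1 - Y + q + (c - g) ≤ k := by omega
      have h6 : s * (k + 1 - Y + q + (c - g)) ≤ s * k := Nat.mul_le_mul_left _ h5
      have h7 : c - g ≤ s * (c - g) := Nat.le_mul_of_pos_left _ hs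
      rw [Nat.mul_add s (k + 1 - Y + q)] at h6
      omega
    refine ⟨k + 1 - Y, by omega, by omega, fun l hl hl' x hx => ?_⟩
    rw [mem_Eset]
    refine ⟨by omega, ?_⟩
    rw [if_pos (by omega)]
    omega

end Pool.Agent.H932R2
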