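import Mathlib
import Pool.Agent.H932R2.Master

set_option autoImplicit false

/-!
# General members of algebraic families
-/

namespace Pool.Agent.H932R2

open Polynomial

section Shift

variable {A : Type*} [CommRing A]

/-- The substitution `x ↦ x + c`, `y ↦ y + γ(x + c)`. -/
noncomputable def sh (c : A) (γ : A[X]) : A[X][X] →+* A[X][X] :=
  (compRingHom (X + C (γ.comp (X + C c)))).comp (mapRingHom (compRingHom (X + C c)))

theorem sh_X (c : A) (γ : A[X]) : sh c γ X = X + C (γ.comp (X + C c)) := by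
  simp [sh]

theorem sh_C (c : A) (γ : A[X]) (a : A[X]) : sh c γ (C a) = C (a.comp (X + C c)) := by
  simp [sh]

theorem sh_sh (c : A) (γ : A[X]) (f : A[X][X]) :
    sh (-c) (-(γ.comp (X + C c))) (sh c γ f) = f := by
  have h : (sh (-c) (-(γ.comp (X + C c)))).comp (sh c γ) = RingHom.id _ := by
    refine ringHom_ext' (ringHom_ext' ?_ ?_) ?_
    · ext a
      simp [sh_C]
    · simp [sh_C]
    · simp [sh_C, sh_X, comp_assoc]
  exact congrArg (fun φ : A[X][X] →+* A[X][X] => φ f) h

theorem map_sh {B : Type*} [CommRing B] (φ : A →+* B) (c : A) (γ : A[X]) (f : A[X][X]) :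
    (sh c γ f).map (mapRingHom φ) = sh (φ c) (γ.map φ) (f.map (mapRingHom φ)) := by
  have h : (mapRingHom (mapRingHom φ)).comp (sh c γ) =
      (sh (φ c) (γ.map φ)).comp (mapRingHom (mapRingHom φ)) := by
    refine ringHom_ext' (ringHom_ext' ?_ ?_) ?_
    · ext a
      simp [sh_C]
    · simp [sh_C]
    · simp [sh_X, map_comp]
  exact congrArg (fun ψ : A[X][X] →+* B[X][X] => ψ f) h

end Shift

variable {K : Type*} [Field K]

theorem rootPoly_const (r : ℕ) (c : K) : rootPoly (fun _ : Fin r => c) = (X - C c) ^ r := by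
  simp [rootPoly]

theorem mem_cIdeal_iff {r m : ℕ} {c : K} {γ : K[X]} {f : K[X][X]} :
    f ∈ cIdeal (fun _ : Fin r => c) γ m ↔
      ∀ l < m, ∀ i < r * (m - l), ((sh c γ f).coeff l).coeff i = 0 := by
  have h1 : f ∈ cIdeal (fun _ : Fin r => c) γ m ↔
      sh c γ f ∈ (Ideal.span {X, C (X ^ r)} : Ideal K[X][X]) ^ m := by
    have key : ∀ (ψ : K[X][X] →+* K[X][X]) (a b a' b' : K[X][X]), ψ a = a' → ψ b = b' →
        ∀ g : K[X][X], g ∈ (Ideal.span {a, b} : Ideal K[X][X]) ^ m →
          ψ g ∈ (Ideal.span {a', b'} : Ideal K[X][X]) ^ m := by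
      intro ψ a b a' b' ha hb g hg
      have h2 := Ideal.mem_map_of_mem ψ hg
      rw [Ideal.map_pow, Ideal.map_span, Set.image_pair, ha, hb] at h2
      exact h2
    constructor
    · intro h
      refine key (sh c γ) _ _ _ _ ?_ ?_ f h
      · rw [map_sub, sh_X, sh_C]
        ring
      · rw [sh_C, rootPoly_const]
        simp
    · intro h
      have h2 := key (sh (-c) (-(γ.comp (X + C c)))) _ _ (X - C γ)
        (C (rootPoly (fun _ : Fin r => c))) ?_ ?_ _ h
      · rw [sh_sh] at h2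
        exact h2
      · rw [sh_X]
        simp [comp_assoc, sub_eq_add_neg]
      · rw [sh_C, rootPoly_const]
        simp [sub_eq_add_neg]
  rw [h1, mem_span_pow_iff]
  refine forall_congr' fun l => forall_congr' fun _ => ?_
  rw [← pow_mul, X_pow_dvd_iff]

/-- The space spanned by the monomials in `M` has at least `n` elements linearly independent
modulo `J`. -/
def RkI (J : Ideal K[X][X]) (M : Set (ℕ × ℕ)) (n : ℕ) : Prop :=
  ∃ v : Fin n → K[X][X], (∀ i, v i ∈ mspan K M) ∧ ∀ c : Fin n → K, ∑ i, c i • v i ∈ J →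
    ∀ i, c i = 0

theorem RkI.mono {J : Ideal K[X][X]} {M M' : Set (ℕ × ℕ)} {n : ℕ} (h : M ⊆ M')
    (hR : RkI J M n) : RkI J M' n := by
  obtain ⟨v, hv, hli⟩ := hR
  exact ⟨v, fun i => mspan_mono h (hv i), hli⟩

theorem RkI.anti {J J' : Ideal K[X][X]} {M : Set (ℕ × ℕ)} {n : ℕ} (h : J' ≤ J)
    (hR : RkI J M n) : RkI J' M n := by
  obtain ⟨v, hv, hli⟩ := hR
  exact ⟨v, hv, fun c hc => hli c (h hc)⟩

/-- The index set of the conditions. -/
def EE (r m : ℕ) : Finset (ℕ × ℕ) := rowsF m fun l => r * (m - l)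

theorem mem_EE {r m i l : ℕ} : ((i, l) : ℕ × ℕ) ∈ EE r m ↔ l < m ∧ i < r * (m - l) := mem_rowsF

theorem card_EE (r m : ℕ) : 2 * (EE r m).card = r * m * (m + 1) := by
  rw [EE, card_rowsF, ← Finset.mul_sum]
  have h1 : ∑ l ∈ Finset.range m, (m - l) = ∑ l ∈ Finset.range (m + 1), l := by
    rw [← Finset.sum_range_reflect (fun l => l) (m + 1), Finset.sum_range_succ]
    have : m + 1 - 1 - m = 0 := by omega
    rw [this, add_zero]
    rfl
  have h2 := Finset.sum_range_id_mul_two (m + 1)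
  rw [Nat.add_sub_cancel] at h2
  rw [h1]
  calc 2 * (r * ∑ l ∈ Finset.range (m + 1), l) = r * ((∑ l ∈ Finset.range (m + 1), l) * 2) := by
        ring
    _ = r * m * (m + 1) := by
        rw [h2]
        ring

/-- The conditions imposed at one point, as a linear map. -/
noncomputable def condMap (r m : ℕ) (c : K) (γ : K[X]) : K[X][X] →ₗ[K] (EE r m → K) where
  toFun f e := ((sh c γ f).coeff e.1.2).coeff e.1.1
  map_add' f g := by
    ext e
    simp
  map_smul' a f := by
    ext e
    have h : sh c γ (a • f) = a • sh c γ f := by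
      have h1 : a • f = C (C a) * f := by
        rw [Algebra.smul_def]
        rfl
      have h2 : a • sh c γ f = C (C a) * sh c γ f := by
        rw [Algebra.smul_def]
        rfl
      rw [h1, h2, map_mul, sh_C, C_comp]
    simp only [h, coeff_smul, RingHom.id_apply, Pi.smul_apply, smul_eq_mul]

theorem mem_cIdeal_iff' {r m : ℕ} {c : K} {γ : K[X]} {f : K[X][X]} :
    f ∈ cIdeal (fun _ : Fin r => c) γ m ↔ condMap r m c γ f = 0 := by
  rw [mem_cIdeal_iff]
  constructor
  · intro h
    ext ⟨⟨i, l⟩, he⟩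
    rw [mem_EE] at he
    exact h l he.1 i he.2
  · intro h l hl i hi
    exact congrFun h ⟨(i, l), mem_EE.2 ⟨hl, hi⟩⟩

/-- The ideal of a finite union of collisions. -/
noncomputable def uIdeal {ι : Type*} (r m : ℕ) (c : ι → K) (γ : ι → K[X]) : Ideal K[X][X] :=
  ⨅ a, cIdeal (fun _ : Fin r => c a) (γ a) m

/-- All the conditions. -/
noncomputable def condMapU {ι : Type*} (r m : ℕ) (c : ι → K) (γ : ι → K[X]) :
    K[X][X] →ₗ[K] (ι × EE r m → K) :=
  LinearMap.pi fun p => (LinearMap.proj p.2).comp (condMap r m (c p.1) (γ p.1))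

theorem mem_uIdeal_iff {ι : Type*} {r m : ℕ} {c : ι → K} {γ : ι → K[X]} {f : K[X][X]} :
    f ∈ uIdeal r m c γ ↔ condMapU r m c γ f = 0 := by
  unfold uIdeal
  simp only [Ideal.mem_iInf, mem_cIdeal_iff']
  constructor
  · intro h
    ext ⟨a, e⟩
    exact congrFun (h a) e
  · intro h a
    ext e
    exact congrFun h (a, e)

end Pool.Agent.H932R2
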