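import Mathlib
import Pool.Agent.H932R2.General

set_option autoImplicit false

/-!
# Openness and dimension counts
-/

namespace Pool.Agent.H932R2

open Polynomial

variable {K : Type*} [Field K]

theorem eval_gen {σ : Type*} (P : σ → K) (c : MvPolynomial σ K) (γ : (MvPolynomial σ K)[X])
    (f : K[X][X]) (i l : ℕ) :
    MvPolynomial.eval P (((sh c γ (f.map (mapRingHom MvPolynomial.C))).coeff l).coeff i) =
      ((sh (MvPolynomial.eval P c) (γ.map (MvPolynomial.eval P)) f).coeff l).coeff i := by
  have h1 := map_sh (MvPolynomial.eval P) c γ (f.map (mapRingHom MvPolynomial.C))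
  have h2 : (f.map (mapRingHom (MvPolynomial.C (σ := σ)))).map
      (mapRingHom (MvPolynomial.eval P)) = f := by
    rw [Polynomial.map_map, mapRingHom_comp]
    have : (MvPolynomial.eval P).comp MvPolynomial.C = RingHom.id K := by
      ext a
      simp
    rw [this, mapRingHom_id, Polynomial.map_id]
  rw [h2] at h1
  rw [← h1, coeff_map, coe_mapRingHom, coeff_map]

theorem exists_open {σ ι : Type*} [Fintype ι] (r m : ℕ) (c : ι → MvPolynomial σ K)
    (γ : ι → (MvPolynomial σ K)[X]) (T : Set (ℕ × ℕ)) (n : ℕ) (P0 : σ → K)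
    (h : RkI (uIdeal r m (fun a => MvPolynomial.eval P0 (c a))
      (fun a => (γ a).map (MvPolynomial.eval P0))) T n) :
    ∃ F : MvPolynomial σ K, F ≠ 0 ∧ ∀ P, MvPolynomial.eval P F ≠ 0 →
      RkI (uIdeal r m (fun a => MvPolynomial.eval P (c a))
        (fun a => (γ a).map (MvPolynomial.eval P))) T n := by
  classical
  obtain ⟨v, hv, hli⟩ := h
  let L : (σ → K) → (Fin n → K) →ₗ[K] (ι × EE r m → K) := fun P =>
    (condMapU r m (fun a => MvPolynomial.eval P (c a))
      (fun a => (γ a).map (MvPolynomial.eval P))).comp (Fintype.linearCombination K v)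
  have hL : ∀ P (a : Fin n → K), L P a = condMapU r m (fun a => MvPolynomial.eval P (c a))
      (fun a => (γ a).map (MvPolynomial.eval P)) (∑ i, a i • v i) := fun P a => rfl
  have hker : LinearMap.ker (L P0) = ⊥ := by
    rw [LinearMap.ker_eq_bot']
    intro a ha
    rw [hL, ← mem_uIdeal_iff] at ha
    exact funext (hli a ha)
  obtain ⟨G, hG⟩ := LinearMap.exists_leftInverse_of_injective (L P0) hker
  let Gen : ι × EE r m → Fin n → MvPolynomial σ K := fun p i =>
    ((sh (c p.1) (γ p.1) ((v i).map (mapRingHom MvPolynomial.C))).coeff p.2.1.2).coeff p.2.1.1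
  have hGen : ∀ P p i, MvPolynomial.eval P (Gen p i) = L P (Pi.single i 1) p := by
    intro P p i
    rw [hL]
    have h1 : ∑ j, (Pi.single i 1 : Fin n → K) j • v j = v i := by
      rw [Finset.sum_eq_single i]
      · simp
      · intro j _ hj
        rw [Pi.single_eq_of_ne hj, zero_smul]
      · intro h
        exact absurd (Finset.mem_univ i) h
    rw [h1]
    exact eval_gen P (c p.1) (γ p.1) (v i) _ _
  let Mx : Matrix (Fin n) (Fin n) (MvPolynomial σ K) := fun k i =>
    ∑ p, MvPolynomial.C (G (Pi.single p 1) k) * Gen p i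
  have hMx : ∀ P k i, MvPolynomial.eval P (Mx k i) = G (L P (Pi.single i 1)) k := by
    intro P k i
    show MvPolynomial.eval P (∑ p, MvPolynomial.C (G (Pi.single p 1) k) * Gen p i) = _
    rw [map_sum]
    have h1 : L P (Pi.single i 1) = ∑ p, (L P (Pi.single i 1) p) • (Pi.single p 1 : _ → K) := by
      ext q
      simp [Finset.sum_apply, Pi.single_apply]
    conv_rhs => rw [h1]
    rw [map_sum, Finset.sum_apply]
    refine Finset.sum_congr rfl fun p _ => ?_
    rw [map_mul, MvPolynomial.eval_C, hGen, map_smul, Pi.smul_apply, smul_eq_mul, mul_comm]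
  have hdet : ∀ P, MvPolynomial.eval P Mx.det =
      (Matrix.of fun k i => G (L P (Pi.single i 1)) k).det := by
    intro P
    rw [RingHom.map_det]
    congr 1
    ext k i
    exact hMx P k i
  refine ⟨Mx.det, ?_, fun P hP => ⟨v, hv, fun a ha => ?_⟩⟩
  · intro h0
    have h1 := hdet P0
    rw [h0, map_zero] at h1
    have h2 : (Matrix.of fun k i => G (L P0 (Pi.single i 1)) k) = (1 : Matrix (Fin n) (Fin n) K) := by
      ext k i
      have h3 : G (L P0 (Pi.single i 1)) = Pi.single i 1 :=
        LinearMap.congr_fun hG (Pi.single i 1)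
      rw [Matrix.of_apply, h3, Matrix.one_apply, Pi.single_apply]
    rw [h2, Matrix.det_one] at h1
    exact zero_ne_one h1
  · rw [hdet] at hP
    rw [mem_uIdeal_iff, ← hL] at ha
    have h1 : (Matrix.of fun k i => G (L P (Pi.single i 1)) k).mulVec a = 0 := by
      ext k
      rw [Matrix.mulVec, dotProduct, Pi.zero_apply]
      have h2 : a = ∑ i, a i • (Pi.single i 1 : Fin n → K) := by
        ext q
        simp [Finset.sum_apply, Pi.single_apply]
      have h3 : G (L P a) k = ∑ i, a i * G (L P (Pi.single i 1)) k := by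
        conv_lhs => rw [h2]
        rw [map_sum, map_sum, Finset.sum_apply]
        refine Finset.sum_congr rfl fun i _ => ?_
        rw [map_smul, map_smul, Pi.smul_apply, smul_eq_mul]
      rw [ha, map_zero, Pi.zero_apply] at h3
      rw [h3]
      exact Finset.sum_congr rfl fun i _ => mul_comm _ _
    exact fun i => congrFun (Matrix.eq_zero_of_mulVec_eq_zero hP h1) i

/-- Exponents of monomials of degree at most `d`, as a finite set. -/
def Tfin (d : ℕ) : Finset (ℕ × ℕ) := rowsF (d + 1) fun l => d + 1 - l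

theorem coe_Tfin (d : ℕ) : (↑(Tfin d) : Set (ℕ × ℕ)) = Tset d := by
  ext ⟨i, l⟩
  rw [Finset.mem_coe, Tfin, mem_rowsF, mem_Tset]
  omega

theorem card_Tfin (d : ℕ) : 2 * (Tfin d).card = (d + 1) * (d + 2) := by
  rw [Tfin, card_rowsF]
  have h1 : ∑ l ∈ Finset.range (d + 1), (d + 1 - l) = ∑ l ∈ Finset.range (d + 2), l := by
    rw [← Finset.sum_range_reflect (fun l => l) (d + 2),
      Finset.sum_range_succ (fun j => d + 2 - 1 - j)]
    have : d + 2 - 1 - (d + 1) = 0 := by omega
    rw [this, add_zero]
    rfl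
  have h2 := Finset.sum_range_id_mul_two (d + 2)
  rw [h1]
  have h3 : d + 2 - 1 = d + 1 := rfl
  rw [h3] at h2
  linarith

theorem finrank_ker_aux {N n : ℕ} {E : Type*} [Fintype E] (L : (Fin N → K) →ₗ[K] (E → K))
    (u : Fin n → (Fin N → K)) (hli : LinearIndependent K (fun i => L (u i)))
    (hn : n = N ∨ n = Fintype.card E) :
    Module.finrank K (LinearMap.ker L) = N - Fintype.card E := by
  have h1 := LinearMap.finrank_range_add_finrank_ker L
  rw [Module.finrank_fin_fun] at h1
  have h2 : Module.finrank K (LinearMap.range L) ≤ Fintype.card E := by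
    refine (Submodule.finrank_le _).trans ?_
    rw [Module.finrank_fintype_fun_eq_card]
  have h3 : n ≤ Module.finrank K (LinearMap.range L) := by
    have h5 := finrank_span_eq_card hli
    rw [Fintype.card_fin] at h5
    rw [← h5]
    refine Submodule.finrank_mono (Submodule.span_le.2 ?_)
    rintro _ ⟨i, rfl⟩
    exact ⟨_, rfl⟩
  omega

/-- The parametrisation of the span of a finite set of monomials by coefficients. -/
noncomputable def coordMap (K : Type*) [Field K] (M : Finset (ℕ × ℕ)) :
    (Fin M.card → K) →ₗ[K] K[X][X] :=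
  Fintype.linearCombination K (fun i => mon K (enumM M i))

theorem coordMap_apply (M : Finset (ℕ × ℕ)) (a : Fin M.card → K) :
    coordMap K M a = ∑ i, a i • mon K (enumM M i) := rfl

theorem coordMap_inj (M : Finset (ℕ × ℕ)) : Function.Injective (coordMap K M) := by
  intro a b hab
  have h1 : ∑ i, (a i - b i) • mon K (enumM M i) = 0 := by
    simp only [sub_smul, Finset.sum_sub_distrib]
    exact sub_eq_zero.2 hab
  funext i
  exact sub_eq_zero.1 (mspan_eq_zero (fun i => a i - b i) h1 i)

theorem mem_mspan_iff (M : Finset (ℕ × ℕ)) (f : K[X][X]) :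
    f ∈ mspan K (↑M : Set (ℕ × ℕ)) ↔ ∃ a, coordMap K M a = f := by
  rw [mspan_eq_range, Submodule.mem_span_range_iff_exists_fun]
  rfl

theorem finrank_inf {ι : Type*} [Fintype ι] {r m : ℕ} {c : ι → K} {γ : ι → K[X]}
    {M : Finset (ℕ × ℕ)} {n : ℕ}
    (hR : RkI (uIdeal r m c γ) (↑M : Set (ℕ × ℕ)) n)
    (hn : n = M.card ∨ n = Fintype.card ι * (EE r m).card) :
    Module.finrank K ↥(mspan K (↑M : Set (ℕ × ℕ)) ⊓
      Submodule.restrictScalars K (uIdeal r m c γ)) =
      M.card - Fintype.card ι * (EE r m).card := by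
  classical
  obtain ⟨v, hv, hli⟩ := hR
  choose u hu using fun i => (mem_mspan_iff M (v i)).1 (hv i)
  have h1 := finrank_ker_aux ((condMapU r m c γ).comp (coordMap K M)) u ?_
    (by rwa [Fintype.card_prod, Fintype.card_coe])
  · rw [Fintype.card_prod, Fintype.card_coe] at h1
    rw [← h1]
    symm
    refine LinearEquiv.finrank_eq (LinearEquiv.ofBijective
      { toFun := fun f => ⟨coordMap K M f.1, (mem_mspan_iff M _).2 ⟨f.1, rfl⟩,
          mem_uIdeal_iff.2 f.2⟩
        map_add' := fun f g => Subtype.ext (map_add _ _ _)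
        map_smul' := fun a f => Subtype.ext (map_smul _ _ _) } ⟨?_, ?_⟩)
    · intro f g hfg
      exact Subtype.ext (coordMap_inj M (congrArg Subtype.val hfg))
    · rintro ⟨f, hf, hf'⟩
      obtain ⟨a, rfl⟩ := (mem_mspan_iff M f).1 hf
      exact ⟨⟨a, mem_uIdeal_iff.1 hf'⟩, rfl⟩
  · rw [Fintype.linearIndependent_iff]
    intro a ha
    apply hli a
    rw [mem_uIdeal_iff, map_sum, ← ha]
    refine Finset.sum_congr rfl fun i _ => ?_
    rw [map_smul, LinearMap.comp_apply, hu]

end Pool.Agent.H932R2
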