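import Mathlib
import Pool.Agent.H932R2.Forms

set_option autoImplicit false

/-!
# Fat points in the projective plane
-/

namespace Pool.Agent.H932R2

open Polynomial

variable {K : Type*} [Field K]

/-- The ideal of the point `(a : b : 1)`. -/
noncomputable def ptIdeal (a b : K) : Ideal (MvPolynomial (Fin 3) K) :=
  Ideal.span {MvPolynomial.X 0 - MvPolynomial.C a * MvPolynomial.X 2,
    MvPolynomial.X 1 - MvPolynomial.C b * MvPolynomial.X 2}

theorem deh_mem_of_mem {a b : K} {m : ℕ} {F : MvPolynomial (Fin 3) K}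
    (hF : F ∈ (ptIdeal a b) ^ m) : deh K F ∈ cIdeal (fun _ : Fin 1 => a) (C b) m := by
  have h := Ideal.mem_map_of_mem (deh K) hF
  rw [Ideal.map_pow, ptIdeal, Ideal.map_span, Set.image_pair] at h
  have h1 : deh K (MvPolynomial.X 0 - MvPolynomial.C a * MvPolynomial.X 2) = C (X - C a) := by
    rw [map_sub, map_mul, deh_X0, deh_X2, mul_one, C_sub]
    congr 1
    exact (deh K).commutes a
  have h2 : deh K (MvPolynomial.X 1 - MvPolynomial.C b * MvPolynomial.X 2) = X - C (C b) := by
    rw [map_sub, map_mul, deh_X1, deh_X2, mul_one]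
    congr 1
    exact (deh K).commutes b
  rw [h1, h2, Set.pair_comm] at h
  unfold cIdeal
  rw [rootPoly_const, pow_one]
  exact h

/-- Translation of the affine coordinates. -/
noncomputable def tr (a b : K) : MvPolynomial (Fin 3) K →ₐ[K] MvPolynomial (Fin 3) K :=
  MvPolynomial.aeval ![MvPolynomial.X 0 + MvPolynomial.C a * MvPolynomial.X 2,
    MvPolynomial.X 1 + MvPolynomial.C b * MvPolynomial.X 2, MvPolynomial.X 2]

theorem tr_X0 (a b : K) : tr a b (MvPolynomial.X 0) =
    MvPolynomial.X 0 + MvPolynomial.C a * MvPolynomial.X 2 := by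
  simp [tr]

theorem tr_X1 (a b : K) : tr a b (MvPolynomial.X 1) =
    MvPolynomial.X 1 + MvPolynomial.C b * MvPolynomial.X 2 := by
  simp [tr]

theorem tr_X2 (a b : K) : tr a b (MvPolynomial.X 2) = MvPolynomial.X 2 := by
  simp [tr]

theorem tr_C (a b c : K) : tr a b (MvPolynomial.C c) = MvPolynomial.C c :=
  (tr a b).commutes c

theorem tr_tr (a b : K) (F : MvPolynomial (Fin 3) K) : tr (-a) (-b) (tr a b F) = F := by
  have h : (tr (-a) (-b)).comp (tr a b) = AlgHom.id K _ := by
    refine MvPolynomial.algHom_ext fun i => ?_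
    fin_cases i
    · simp [tr_X0, tr_X2]
    · simp [tr_X1, tr_X2]
    · simp [tr_X2]
  exact AlgHom.congr_fun h F

theorem tr_homog {a b : K} {d : ℕ} {F : MvPolynomial (Fin 3) K} (hF : F.IsHomogeneous d) :
    (tr a b F).IsHomogeneous d := by
  have h : (tr a b F).IsHomogeneous (1 * d) := by
    unfold tr
    refine hF.aeval _ fun i => ?_
    fin_cases i
    · exact (MvPolynomial.isHomogeneous_X K _).add
        ((MvPolynomial.isHomogeneous_X K _).C_mul a)
    · exact (MvPolynomial.isHomogeneous_X K _).add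
        ((MvPolynomial.isHomogeneous_X K _).C_mul b)
    · exact MvPolynomial.isHomogeneous_X K _
  rwa [one_mul] at h

theorem deh_tr (a b : K) (F : MvPolynomial (Fin 3) K) :
    deh K (tr a b F) = sh a (C b) (deh K F) := by
  have h : ((deh K : MvPolynomial (Fin 3) K →+* K[X][X])).comp
      (tr a b : MvPolynomial (Fin 3) K →+* MvPolynomial (Fin 3) K) =
      (sh a (C b)).comp (deh K : MvPolynomial (Fin 3) K →+* K[X][X]) := by
    refine MvPolynomial.ringHom_ext (fun c => ?_) fun i => ?_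
    · have h1 : deh K (MvPolynomial.C c) = C (C c) := (deh K).commutes c
      simp only [RingHom.comp_apply, RingHom.coe_coe, tr_C, h1, sh_C, C_comp]
    · have h1 : ∀ c, deh K (MvPolynomial.C c) = C (C c) := fun c => (deh K).commutes c
      fin_cases i
      · show deh K (tr a b (MvPolynomial.X 0)) = sh a (C b) (deh K (MvPolynomial.X 0))
        rw [tr_X0, map_add, map_mul, deh_X0, deh_X2, h1, mul_one, sh_C, X_comp, C_add]
      · show deh K (tr a b (MvPolynomial.X 1)) = sh a (C b) (deh K (MvPolynomial.X 1))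
        rw [tr_X1, map_add, map_mul, deh_X1, deh_X2, h1, mul_one, sh_X, C_comp]
      · show deh K (tr a b (MvPolynomial.X 2)) = sh a (C b) (deh K (MvPolynomial.X 2))
        rw [tr_X2, deh_X2, map_one]
  exact congrArg (fun φ : MvPolynomial (Fin 3) K →+* K[X][X] => φ F) h

theorem mem_origin {m : ℕ} {G : MvPolynomial (Fin 3) K}
    (h : ∀ α, G.coeff α ≠ 0 → m ≤ α 0 + α 1) :
    G ∈ (Ideal.span {MvPolynomial.X 0, MvPolynomial.X 1} : Ideal (MvPolynomial (Fin 3) K)) ^ m := by
  rw [G.as_sum]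
  refine Ideal.sum_mem _ fun α hα => ?_
  have h1 := h α (MvPolynomial.mem_support_iff.1 hα)
  have h0 : (MvPolynomial.X 0 : MvPolynomial (Fin 3) K) ∈
      (Ideal.span {MvPolynomial.X 0, MvPolynomial.X 1} : Ideal (MvPolynomial (Fin 3) K)) :=
    Ideal.subset_span (Or.inl rfl)
  have h0' : (MvPolynomial.X 1 : MvPolynomial (Fin 3) K) ∈
      (Ideal.span {MvPolynomial.X 0, MvPolynomial.X 1} : Ideal (MvPolynomial (Fin 3) K)) :=
    Ideal.subset_span (Or.inr rfl)
  have h2 : (MvPolynomial.X 0 ^ α 0 * MvPolynomial.X 1 ^ α 1 : MvPolynomial (Fin 3) K) ∈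
      (Ideal.span {MvPolynomial.X 0, MvPolynomial.X 1} : Ideal (MvPolynomial (Fin 3) K)) ^
        (α 0 + α 1) := by
    rw [Ideal.IsTwoSided.pow_add]
    exact Ideal.mul_mem_mul (Ideal.pow_mem_pow h0 _) (Ideal.pow_mem_pow h0' _)
  have h3 := Ideal.pow_le_pow_right h1 h2
  have h4 : MvPolynomial.monomial α (G.coeff α) =
      (MvPolynomial.C (G.coeff α) * MvPolynomial.X 2 ^ α 2) *
        (MvPolynomial.X 0 ^ α 0 * MvPolynomial.X 1 ^ α 1) := by
    rw [MvPolynomial.monomial_eq, Finsupp.prod_fintype _ _ (fun i => by simp),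
      Fin.prod_univ_three]
    ring
  rw [h4]
  exact Ideal.mul_mem_left _ _ h3

theorem mem_ptIdeal_iff {a b : K} {m d : ℕ} {F : MvPolynomial (Fin 3) K}
    (hF : F ∈ MvPolynomial.homogeneousSubmodule (Fin 3) K d) :
    F ∈ (ptIdeal a b) ^ m ↔ deh K F ∈ cIdeal (fun _ : Fin 1 => a) (C b) m := by
  refine ⟨deh_mem_of_mem, fun h => ?_⟩
  rw [MvPolynomial.mem_homogeneousSubmodule] at hF
  rw [mem_cIdeal_iff] at h
  have hG : (tr a b F).IsHomogeneous d := tr_homog hF
  have h1 : tr a b F ∈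
      (Ideal.span {MvPolynomial.X 0, MvPolynomial.X 1} : Ideal (MvPolynomial (Fin 3) K)) ^ m := by
    refine mem_origin fun α hα => ?_
    by_contra hlt
    have h2 := coeff_deh hG hα
    rw [deh_tr, h (α 1) (by omega) (α 0) (by omega)] at h2
    exact hα h2.symm
  have h2 := Ideal.mem_map_of_mem (tr (-a) (-b)) h1
  rw [tr_tr, Ideal.map_pow, Ideal.map_span, Set.image_pair, tr_X0, tr_X1] at h2
  unfold ptIdeal
  have e1 : (MvPolynomial.X 0 + MvPolynomial.C (-a) * MvPolynomial.X 2 :
      MvPolynomial (Fin 3) K) = MvPolynomial.X 0 - MvPolynomial.C a * MvPolynomial.X 2 := by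
    rw [map_neg]
    ring
  have e2 : (MvPolynomial.X 1 + MvPolynomial.C (-b) * MvPolynomial.X 2 :
      MvPolynomial (Fin 3) K) = MvPolynomial.X 1 - MvPolynomial.C b * MvPolynomial.X 2 := by
    rw [map_neg]
    ring
  rw [e1, e2] at h2
  exact h2

end Pool.Agent.H932R2
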