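import Mathlib
import Pool.Agent.H932R2.Points

set_option autoImplicit false

/-!
# Maximal rank for general fat points and general collisions
-/

namespace Pool.Agent.H932R2

open Polynomial

variable {K : Type*} [Field K]

theorem RkI.full {J : Ideal K[X][X]} {M : Finset (ℕ × ℕ)}
    (hR : RkI J (↑M : Set (ℕ × ℕ)) M.card) :
    ∀ c : Fin M.card → K, ∑ i, c i • mon K (enumM M i) ∈ J → ∀ i, c i = 0 := by
  classical
  obtain ⟨v, hv, hli⟩ := hR
  rw [← li_mk_iff] at hli ⊢
  refine li_of_li_in_span _ _ hli fun i => ?_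
  have h1 := hv i
  rw [mspan_eq_range] at h1
  have h2 := Submodule.mem_map_of_mem (f := (Ideal.Quotient.mkₐ K J).toLinearMap) h1
  rw [Submodule.map_span, ← Set.range_comp] at h2
  exact h2

theorem RkI.subset {J : Ideal K[X][X]} {M M' : Finset (ℕ × ℕ)}
    (hR : RkI J (↑M : Set (ℕ × ℕ)) M.card) (h : M' ⊆ M) :
    RkI J (↑M' : Set (ℕ × ℕ)) M'.card := by
  classical
  have hf := hR.full
  refine ⟨fun i => mon K (enumM M' i),
    fun i => Submodule.subset_span ⟨_, enumM_mem M' i, rfl⟩, fun c hc i => ?_⟩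
  let e : ℕ × ℕ → K := fun p => ∑ j, if enumM M' j = p then c j else 0
  have he : ∀ j, e (enumM M' j) = c j := by
    intro j
    show (∑ k, if enumM M' k = enumM M' j then c k else 0) = c j
    rw [Finset.sum_eq_single j]
    · simp
    · intro k _ hk
      rw [if_neg]
      intro h'
      exact hk (enumM_inj M' h')
    · intro h'
      exact absurd (Finset.mem_univ j) h'
  have he0 : ∀ p, p ∉ M' → e p = 0 := by
    intro p hp
    refine Finset.sum_eq_zero fun k _ => ?_
    rw [if_neg]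
    rintro rfl
    exact hp (enumM_mem M' k)
  have h1 : ∑ j, e (enumM M j) • mon K (enumM M j) = ∑ j, c j • mon K (enumM M' j) := by
    rw [sum_enumM M (fun p => e p • mon K p)]
    have h2 : ∑ j, c j • mon K (enumM M' j) = ∑ j, e (enumM M' j) • mon K (enumM M' j) :=
      Finset.sum_congr rfl fun j _ => by rw [he]
    rw [h2, sum_enumM M' (fun p => e p • mon K p)]
    refine (Finset.sum_subset h fun p _ hp => ?_).symm
    rw [he0 p hp, zero_smul]
  have h3 := hf (fun j => e (enumM M j)) (by rw [h1]; exact hc)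
  obtain ⟨j, hj⟩ := enumM_surj M (h (enumM_mem M' i))
  have h4 := h3 j
  rw [hj, he] at h4
  exact h4

theorem Tset_mono {d d' : ℕ} (h : d ≤ d') : Tset d ⊆ Tset d' := fun _ hp => le_trans hp h

/-- The dimension in every degree from the ranks in two consecutive degrees. -/
theorem finrank_all {ι : Type*} [Fintype ι] {r m : ℕ} {c : ι → K} {γ : ι → K[X]} {e : ℕ}
    (h2 : RkI (uIdeal r m c γ) (Tset e) (Tfin e).card)
    (h3 : RkI (uIdeal r m c γ) (Tset (e + 1)) (Fintype.card ι * (EE r m).card)) (d : ℕ) :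
    Module.finrank K ↥(mspan K (Tset d) ⊓ Submodule.restrictScalars K (uIdeal r m c γ)) =
      (d + 2).choose 2 - Fintype.card ι * (EE r m).card := by
  have hN : ∀ d, (Tfin d).card = (d + 2).choose 2 := by
    intro d
    have h4 := card_Tfin d
    have h5 : (d + 2).choose 2 * 2 = (d + 2) * (d + 1) := by
      rw [Nat.choose_two_right, Nat.div_mul_cancel (Nat.even_mul_pred_self _).two_dvd]
      rfl
    linarith
  rcases Nat.lt_or_ge e d with h | h
  · rw [← coe_Tfin, ← hN]
    refine finrank_inf (n := Fintype.card ι * (EE r m).card) ?_ (Or.inr rfl)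
    rw [coe_Tfin]
    exact h3.mono (Tset_mono h)
  · rw [← coe_Tfin, ← hN]
    refine finrank_inf (n := (Tfin d).card) ?_ (Or.inl rfl)
    rw [← coe_Tfin] at h2
    refine h2.subset ?_
    have := Tset_mono h
    rw [← coe_Tfin, ← coe_Tfin] at this
    exact_mod_cast this

theorem mem_cIdeal_iff_sh {r : ℕ} {x : Fin r → K} {γ : K[X]} {m : ℕ} {f : K[X][X]} :
    f ∈ cIdeal x γ m ↔ ∀ l < m, rootPoly x ^ (m - l) ∣ (sh 0 γ f).coeff l := by
  have h1 : f ∈ cIdeal x γ m ↔
      sh 0 γ f ∈ (Ideal.span {X, C (rootPoly x)} : Ideal K[X][X]) ^ m := by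
    have key : ∀ (ψ : K[X][X] →+* K[X][X]) (a b a' b' : K[X][X]), ψ a = a' → ψ b = b' →
        ∀ g : K[X][X], g ∈ (Ideal.span {a, b} : Ideal K[X][X]) ^ m →
          ψ g ∈ (Ideal.span {a', b'} : Ideal K[X][X]) ^ m := by
      intro ψ a b a' b' ha hb g hg
      have h2 := Ideal.mem_map_of_mem ψ hg
      rw [Ideal.map_pow, Ideal.map_span, Set.image_pair, ha, hb] at h2
      exact h2
    constructor
    · intro h
      refine key (sh 0 γ) _ _ _ _ ?_ ?_ f h
      · rw [map_sub, sh_X, sh_C]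
        ring
      · rw [sh_C]
        simp
    · intro h
      have h2 := key (sh (-0) (-(γ.comp (X + C 0)))) _ _ (X - C γ)
        (C (rootPoly x)) ?_ ?_ _ h
      · rw [sh_sh] at h2
        exact h2
      · rw [sh_X]
        simp [sub_eq_add_neg]
      · rw [sh_C]
        simp
  rw [h1, mem_span_pow_iff]

theorem point_le (a : K) (γ : K[X]) (m : ℕ) :
    cIdeal (fun _ : Fin 1 => a) (C (γ.eval a)) m ≤ cIdeal (fun _ : Fin 1 => a) γ m := by
  unfold cIdeal
  refine Ideal.pow_right_mono (Ideal.span_le.2 ?_) m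
  rintro f (rfl | rfl)
  · obtain ⟨u, hu⟩ := X_sub_C_dvd_sub_C_eval (a := a) (p := γ)
    have h1 : (X - C (C (γ.eval a)) : K[X][X]) = (X - C γ) + C u * C ((X - C a) ^ 1) := by
      rw [pow_one, ← C_mul, mul_comm u, ← hu, C_sub]
      ring
    rw [h1, rootPoly_const]
    exact Ideal.add_mem _ (Ideal.subset_span (Or.inl rfl))
      (Ideal.mul_mem_left _ _ (Ideal.subset_span (Or.inr rfl)))
  · exact Ideal.subset_span (Or.inr rfl)

theorem uIdeal_le {n : ℕ} {x : Fin n → K} (hx : Function.Injective x) (γ : K[X]) (m : ℕ) :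
    uIdeal 1 m x (fun a => C (γ.eval (x a))) ≤ cIdeal x γ m := by
  intro f hf
  rw [mem_cIdeal_iff_sh]
  intro l hl
  have h1 : ∀ a, (X - C (x a)) ^ (m - l) ∣ (sh 0 γ f).coeff l := by
    intro a
    have h2 : f ∈ cIdeal (fun _ : Fin 1 => x a) γ m :=
      point_le _ _ _ ((Ideal.mem_iInf.1 hf) a)
    have h3 := mem_cIdeal_iff_sh.1 h2 l hl
    rwa [rootPoly_const, pow_one] at h3
  unfold rootPoly
  rw [← Finset.prod_pow]
  refine Finset.prod_dvd_of_coprime (fun a _ b _ hab => ?_) fun a _ => h1 a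
  exact (isCoprime_X_sub_C_of_isUnit_sub
    (isUnit_iff_ne_zero.2 (sub_ne_zero.2 fun h => hab (hx h)))).pow

end Pool.Agent.H932R2
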