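import Mathlib
import Pool.Agent.H932R2.Final

set_option autoImplicit false

/-!
# Main theorems
-/

namespace Pool.Agent.H932R2

open Polynomial

variable {K : Type*} [Field K]

theorem card_EE_eq (m : ℕ) : (EE 1 m).card = (m + 1).choose 2 := by
  have h4 := card_EE 1 m
  have h5 : (m + 1).choose 2 * 2 = (m + 1) * m := by
    rw [Nat.choose_two_right, Nat.div_mul_cancel (Nat.even_mul_pred_self _).two_dvd]
    rfl
  rw [one_mul] at h4
  linarith

theorem card_EE_eq' (r m : ℕ) : (EE r m).card = r * (m + 1).choose 2 := by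
  have h4 := card_EE r m
  have h5 : (m + 1).choose 2 * 2 = (m + 1) * m := by
    rw [Nat.choose_two_right, Nat.div_mul_cancel (Nat.even_mul_pred_self _).two_dvd]
    rfl
  have h6 : 2 * (r * (m + 1).choose 2) = r * m * (m + 1) := by
    calc 2 * (r * (m + 1).choose 2) = r * ((m + 1).choose 2 * 2) := by ring
      _ = r * m * (m + 1) := by rw [h5]; ring
  omega

theorem card_Tfin_eq (d : ℕ) : 2 * (Tfin d).card = (d + 1) * (d + 2) := card_Tfin d

/-- Uniform maximal rank for general points. -/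
theorem points_main [Infinite K] {n m : ℕ} (hn : 10 ≤ n) (hm : 1 ≤ m)
    (hcond : ∃ δ κ, Cond n m δ κ) (hK : ∀ k : ℕ, 0 < k → k ≤ n * (m + 1) → (k : K) ≠ 0) :
    ∃ F : MvPolynomial (Fin n × Fin 2) K, F ≠ 0 ∧
      ∀ P : Fin n → Fin 2 → K,
        MvPolynomial.eval (fun ij : Fin n × Fin 2 => P ij.1 ij.2) F ≠ 0 →
        ∀ d : ℕ,
          Module.finrank K
            ↥(MvPolynomial.homogeneousSubmodule (Fin 3) K d ⊓
              Submodule.restrictScalars K
                (⨅ i : Fin n,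
                  (Ideal.span
                    ({MvPolynomial.X 0 - MvPolynomial.C (P i 0) * MvPolynomial.X 2,
                      MvPolynomial.X 1 - MvPolynomial.C (P i 1) * MvPolynomial.X 2} :
                      Set (MvPolynomial (Fin 3) K))) ^ m))
          = Nat.choose (d + 2) 2 - n * Nat.choose (m + 1) 2 := by
  classical
  let 𝒞 : Set (Fin n → K) := {x | Function.Injective x}
  have h𝒞 : AffInv 𝒞 := by
    intro x hx t ht c a b hab
    exact hx (mul_left_cancel₀ ht (add_left_cancel hab))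
  have hx0 : (fun i : Fin n => Infinite.natEmbedding K i) ∈ 𝒞 := by
    intro a b hab
    exact Fin.ext ((Infinite.natEmbedding K).injective hab)
  obtain ⟨e, he1, he2, he3, he4⟩ := exists_rank (m := m) h𝒞 hx0 hn hm hcond hK
  have h1 := he3 (Tfin e).card (card_Tfin e)
  have h2 := he4 (n * (EE 1 m).card) (by
    have := card_EE 1 m
    calc 2 * (n * (EE 1 m).card) = n * (2 * (EE 1 m).card) := by ring
      _ = n * m * (m + 1) := by rw [this]; ring)
  let c : Fin n → MvPolynomial (Fin n × Fin 2) K := fun a => MvPolynomial.X (a, 0)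
  let γ : Fin n → (MvPolynomial (Fin n × Fin 2) K)[X] := fun a => C (MvPolynomial.X (a, 1))
  have hev : ∀ P : Fin n × Fin 2 → K,
      uIdeal 1 m (fun a => MvPolynomial.eval P (c a)) (fun a => (γ a).map (MvPolynomial.eval P)) =
      uIdeal 1 m (fun a => P (a, 0)) (fun a => C (P (a, 1))) := by
    intro P
    simp [c, γ]
  have hop : ∀ (T : Set (ℕ × ℕ)) (N : ℕ), Rk 𝒞 m T N →
      ∃ F : MvPolynomial (Fin n × Fin 2) K, F ≠ 0 ∧ ∀ P, MvPolynomial.eval P F ≠ 0 →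
        RkI (uIdeal 1 m (fun a => P (a, 0)) (fun a => C (P (a, 1)))) T N := by
    rintro T N ⟨x, hx, g, hR⟩
    have hR' : RkI (cIdeal x g m) T N := hR
    have h3 := hR'.anti (uIdeal_le hx g m)
    let P0 : Fin n × Fin 2 → K := fun ij => if ij.2 = 0 then x ij.1 else g.eval (x ij.1)
    obtain ⟨F, hF, hF'⟩ := exists_open 1 m c γ T N P0 (by
      rw [hev]
      simpa [P0] using h3)
    exact ⟨F, hF, fun P hP => by rw [← hev]; exact hF' P hP⟩
  obtain ⟨F1, hF1, hF1'⟩ := hop _ _ h1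
  obtain ⟨F2, hF2, hF2'⟩ := hop _ _ h2
  refine ⟨F1 * F2, mul_ne_zero hF1 hF2, fun P hP d => ?_⟩
  rw [map_mul] at hP
  have h3 := hF1' _ (left_ne_zero_of_mul hP)
  have h4 := hF2' _ (right_ne_zero_of_mul hP)
  have h5 := finrank_all h3 (by rw [Fintype.card_fin]; exact h4) d
  rw [Fintype.card_fin, card_EE_eq] at h5
  rw [← h5]
  refine finrank_forms _ _ fun F hF => ?_
  rw [Submodule.restrictScalars_mem, Submodule.restrictScalars_mem]
  unfold uIdeal
  rw [Ideal.mem_iInf, Ideal.mem_iInf]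
  exact forall_congr' fun i => mem_ptIdeal_iff hF

theorem cIdeal_mod {r : ℕ} (x : Fin r → K) (γ : K[X]) (m : ℕ) :
    cIdeal x (γ %ₘ rootPoly x) m ≤ cIdeal x γ m := by
  unfold cIdeal
  refine Ideal.pow_right_mono (Ideal.span_le.2 ?_) m
  rintro f (rfl | rfl)
  · have h := modByMonic_add_div γ (rootPoly x)
    have h1 : (X - C (γ %ₘ rootPoly x) : K[X][X]) =
        (X - C γ) + C (γ /ₘ rootPoly x) * C (rootPoly x) := by
      rw [← C_mul, mul_comm (γ /ₘ rootPoly x)]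
      conv_rhs => rw [← h]
      rw [C_add, modByMonic_add_div]
      ring
    rw [h1]
    exact Ideal.add_mem _ (Ideal.subset_span (Or.inl rfl))
      (Ideal.mul_mem_left _ _ (Ideal.subset_span (Or.inr rfl)))
  · exact Ideal.subset_span (Or.inr rfl)

/-- The ideal `(y - ∑ a_j x ^ j, (x - c) ^ r) ^ m` of `K[x][y]`. -/
noncomputable def jetIdeal {r : ℕ} (m : ℕ) (c : K) (a : Fin r → K) : Ideal K[X][X] :=
  (Ideal.span {X - C (∑ j : Fin r, C (a j) * X ^ (j : ℕ)), C ((X - C c) ^ r)}) ^ m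

/-- Uniform maximal rank for general collisions. -/
theorem collision_main [Infinite K] {r m : ℕ} (hr : 10 ≤ r) (hm : 1 ≤ m)
    (hcond : ∃ δ κ, Cond r m δ κ) (hK : ∀ k : ℕ, 0 < k → k ≤ r * (m + 1) → (k : K) ≠ 0) :
    ∃ F : MvPolynomial (Fin (r + 1)) K, F ≠ 0 ∧
      ∀ (c : K) (a : Fin r → K), MvPolynomial.eval (Fin.cons c a : Fin (r + 1) → K) F ≠ 0 →
        ∀ d : ℕ,
          Module.finrank K
            ↥(MvPolynomial.homogeneousSubmodule (Fin 3) K d ⊓
              (Submodule.restrictScalars K (jetIdeal m c a)).comap (deh K).toLinearMap)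
          = Nat.choose (d + 2) 2 - r * Nat.choose (m + 1) 2 := by
  classical
  let 𝒞 : Set (Fin r → K) := {x | ∃ c, x = fun _ => c}
  have h𝒞 : AffInv 𝒞 := by
    rintro _ ⟨c0, rfl⟩ t _ c
    exact ⟨c + t * c0, rfl⟩
  have hx0 : (fun _ : Fin r => (0 : K)) ∈ 𝒞 := ⟨0, rfl⟩
  obtain ⟨e, he1, he2, he3, he4⟩ := exists_rank (m := m) h𝒞 hx0 hr hm hcond hK
  have h1 := he3 (Tfin e).card (card_Tfin e)
  have h2 := he4 (EE r m).card (card_EE r m)
  let c : Unit → MvPolynomial (Fin (r + 1)) K := fun _ => MvPolynomial.X 0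
  let γ : Unit → (MvPolynomial (Fin (r + 1)) K)[X] := fun _ =>
    ∑ j : Fin r, C (MvPolynomial.X j.succ) * X ^ (j : ℕ)
  have hev : ∀ (c0 : K) (a : Fin r → K),
      uIdeal r m (fun i => MvPolynomial.eval (Fin.cons c0 a : Fin (r + 1) → K) (c i))
        (fun i => (γ i).map (MvPolynomial.eval (Fin.cons c0 a : Fin (r + 1) → K))) =
      jetIdeal m c0 a := by
    intro c0 a
    simp only [c, γ, MvPolynomial.eval_X, Fin.cons_zero, uIdeal, iInf_const, cIdeal, jetIdeal,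
      rootPoly_const, Polynomial.map_sum, Polynomial.map_mul, Polynomial.map_C,
      Polynomial.map_pow, Polynomial.map_X, Fin.cons_succ]
  have hop : ∀ (T : Set (ℕ × ℕ)) (N : ℕ), Rk 𝒞 m T N →
      ∃ F : MvPolynomial (Fin (r + 1)) K, F ≠ 0 ∧ ∀ c0 a,
        MvPolynomial.eval (Fin.cons c0 a : Fin (r + 1) → K) F ≠ 0 →
        RkI (jetIdeal m c0 a) T N := by
    rintro T N ⟨_, ⟨c1, rfl⟩, g, hR⟩
    have hR' : RkI (cIdeal (fun _ : Fin r => c1) g m) T N := hR
    have h3 := hR'.anti (cIdeal_mod _ g m)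
    have hdeg : (g %ₘ rootPoly (fun _ : Fin r => c1)).natDegree < r := by
      have h4 := natDegree_modByMonic_lt g (rootPoly_monic (fun _ : Fin r => c1)) (by
        intro h5
        have h6 := rootPoly_natDegree (fun _ : Fin r => c1)
        rw [h5, natDegree_one] at h6
        omega)
      rwa [rootPoly_natDegree] at h4
    obtain ⟨g', hg'⟩ : ∃ g', g' = g %ₘ rootPoly (fun _ : Fin r => c1) := ⟨_, rfl⟩
    rw [← hg'] at h3 hdeg
    have hsum : ∑ j : Fin r, C (g'.coeff j) * X ^ (j : ℕ) = g' := by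
      conv_rhs => rw [as_sum_range_C_mul_X_pow' g' hdeg]
      exact (Finset.sum_range fun j => C (g'.coeff j) * X ^ j).symm
    obtain ⟨F, hF, hF'⟩ := exists_open r m c γ T N
      (Fin.cons c1 (fun j : Fin r => g'.coeff j) : Fin (r + 1) → K) (by
      rw [hev, jetIdeal, hsum]
      unfold cIdeal at h3
      rw [rootPoly_const] at h3
      exact h3)
    exact ⟨F, hF, fun c0 a hP => by rw [← hev]; exact hF' _ hP⟩
  obtain ⟨F1, hF1, hF1'⟩ := hop _ _ h1
  obtain ⟨F2, hF2, hF2'⟩ := hop _ _ h2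
  refine ⟨F1 * F2, mul_ne_zero hF1 hF2, fun c0 a hP d => ?_⟩
  rw [map_mul] at hP
  have h3 := hF1' _ _ (left_ne_zero_of_mul hP)
  have h4 := hF2' _ _ (right_ne_zero_of_mul hP)
  rw [← hev] at h3 h4
  have h5 := finrank_all h3 (by rw [Fintype.card_unit, one_mul]; exact h4) d
  rw [Fintype.card_unit, one_mul, card_EE_eq', hev] at h5
  rw [← h5]
  exact finrank_forms _ _ fun F _ => Iff.rfl

/-- An explicit range for the numerical condition. -/
theorem cond_of_le {r m : ℕ} (hr : 10 ≤ r) (h : (m : ℝ) ≤ r - 6 * Real.sqrt r + 11) :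
    ∃ δ κ, Cond r m δ κ := by
  obtain ⟨δ, κ, hδ, hrδ, hκ⟩ : ∃ δ κ : ℕ, 2 ≤ δ ∧ r = δ * δ + 2 * κ ∧ κ ≤ 2 * δ + 1 := by
    have h0 : r.sqrt * r.sqrt ≤ r := Nat.sqrt_le r
    have h1 : r < (r.sqrt + 1) * (r.sqrt + 1) := Nat.lt_succ_sqrt r
    have h3 : 3 ≤ r.sqrt := Nat.le_sqrt.2 (by omega)
    obtain ⟨q, hq⟩ : ∃ q, q = r.sqrt := ⟨_, rfl⟩
    rw [← hq] at h0 h1 h3
    obtain ⟨w, hw⟩ := Nat.exists_eq_add_of_le h0
    have h1' : (q + 1) * (q + 1) = q * q + 2 * q + 1 := by ring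
    rcases Nat.even_or_odd w with ⟨v, hv⟩ | ⟨v, hv⟩
    · exact ⟨q, v, by omega, by omega, by omega⟩
    · obtain ⟨p, rfl⟩ : ∃ p, q = p + 1 := ⟨q - 1, by omega⟩
      have h2 : (p + 1) * (p + 1) = p * p + 2 * p + 1 := by ring
      exact ⟨p, p + v + 1, by omega, by omega, by omega⟩
  refine ⟨δ, κ, hδ, hrδ, Or.inr ?_⟩
  have hx0 : (0 : ℝ) ≤ r := Nat.cast_nonneg r
  have hx1 := Real.sq_sqrt hx0
  have hx2 := Real.sqrt_nonneg (r : ℝ)
  obtain ⟨x, hx⟩ : ∃ x, x = Real.sqrt (r : ℝ) := ⟨_, rfl⟩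
  rw [← hx] at h hx1 hx2
  have h10 : (10 : ℝ) ≤ r := by exact_mod_cast hr
  have hx3 : 3 < x := by nlinarith
  have hrR : (r : ℝ) ≤ δ * δ + 4 * δ + 2 := by
    have : r ≤ δ * δ + 4 * δ + 2 := by omega
    exact_mod_cast this
  have hx4 : x < δ + 2 := by nlinarith
  have hm1 : (m : ℝ) < (δ - 1) * (δ - 1) + 2 := by nlinarith
  have hδR : (2 : ℝ) ≤ δ := by exact_mod_cast hδ
  have hm2 : m + 1 ≤ (δ - 1) * (δ - 1) + 2 := by
    have h5 : ((δ - 1 : ℕ) : ℝ) = (δ : ℝ) - 1 := by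
      rw [Nat.cast_sub (by omega), Nat.cast_one]
    have h6 : (m : ℝ) < (((δ - 1) * (δ - 1) + 2 : ℕ) : ℝ) := by
      push_cast
      rw [h5]
      exact hm1
    exact_mod_cast h6
  obtain ⟨ε, rfl⟩ : ∃ ε, δ = ε + 2 := ⟨δ - 2, by omega⟩
  have h7 : ε + 2 - 1 = ε + 1 := rfl
  rw [h7] at hm2
  have h8 : r * m * (m + 1) ≤ ((ε + 2) * (ε + 2) + 4 * (ε + 2) + 2) *
      ((ε + 1) * (ε + 1) + 1) * ((ε + 1) * (ε + 1) + 2) :=
    Nat.mul_le_mul (Nat.mul_le_mul (by omega) (by omega)) (by omega)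
  refine lt_of_le_of_lt h8 ?_
  have h9 : ((ε + 2) * (ε + 2) * ((ε + 2) * (ε + 2) + 3) * ((ε + 2) * (ε + 2) + 4)) =
      ((ε + 2) * (ε + 2) + 4 * (ε + 2) + 2) * ((ε + 1) * (ε + 1) + 1) * ((ε + 1) * (ε + 1) + 2) +
        (12 * ε ^ 4 + 78 * ε ^ 3 + 208 * ε ^ 2 + 276 * ε + 140) := by
    ring
  omega

end Pool.Agent.H932R2
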